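import Pool.Agent.W349.NP.Tau

/-!
# Exponentially many permanents of matrices with entries 1 and -1
-/

set_option autoImplicit false

namespace Pool.Agent.W349.NP

open MvPolynomial Finset

noncomputable section

/-- bounds for the numbers `(T, U)` -/
theorem TU_bounds (K : ℕ) : ∀ e : ℕ, 3 * K ≤ e →
    0 ≤ (TU K e).1 ∧ (TU K e).1 ≤ ((K + e).factorial : ℤ) ∧
    0 ≤ (TU K e).2 ∧ (TU K e).2 ≤ ((K + e).factorial : ℤ) ∧
    ((K + e).factorial : ℤ) * ((K + e : ℕ) - 4 * K) ≤ (K + e : ℕ) * (TU K e).1 := by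
  induction K with
  | zero =>
    intro e _
    have : (0:ℤ) ≤ (e.factorial : ℤ) := by positivity
    simp only [TU, zero_add]
    refine ⟨this, le_rfl, this, le_rfl, ?_⟩
    simp [mul_comm]
  | succ K ih =>
    intro e he
    obtain ⟨a1, a2, a3, a4, a5⟩ := ih e (by omega)
    obtain ⟨b1, b2, b3, b4, b5⟩ := ih (e + 1) (by omega)
    have hf : (((K + 1 + e).factorial : ℕ) : ℤ) = (K + e + 1 : ℕ) * ((K + e).factorial : ℤ) := by
      rw [show K + 1 + e = (K + e) + 1 by ring, Nat.factorial_succ]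
      push_cast
      ring
    have hf' : (((K + (e + 1)).factorial : ℕ) : ℤ) = ((K + 1 + e).factorial : ℤ) := by
      rw [show K + (e + 1) = K + 1 + e by ring]
    rw [hf'] at b2 b4 b5
    have hF : (0:ℤ) < ((K + e).factorial : ℤ) := by positivity
    have hn : (0:ℤ) < ((K + e + 1 : ℕ) : ℤ) := by positivity
    have hlow : ((K + 1 + e).factorial : ℤ) * ((K + 1 + e : ℕ) - 4 * ((K + 1 : ℕ) : ℤ)) ≤
        (K + 1 + e : ℕ) * (TU (K + 1) e).1 := by
      have h1 : (TU (K + 1) e).1 = (TU K (e + 1)).1 - 2 * (TU K e).1 - 2 * (TU K e).2 := rfl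
      rw [h1]
      push_cast at b5 hf ⊢
      nlinarith
    have h0 : 0 ≤ (TU (K + 1) e).1 := by
      by_contra hneg
      rw [not_le] at hneg
      have h2 : (0:ℤ) ≤ ((K + 1 + e).factorial : ℤ) *
          ((K + 1 + e : ℕ) - 4 * ((K + 1 : ℕ) : ℤ)) := by
        refine mul_nonneg (by positivity) ?_
        push_cast
        have : (3 * (K + 1) : ℤ) ≤ e := by exact_mod_cast he
        linarith
      have h3 : ((K + 1 + e : ℕ) : ℤ) * (TU (K + 1) e).1 < 0 :=
        mul_neg_of_pos_of_neg (by positivity) hneg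
      linarith
    refine ⟨h0, ?_, ?_, ?_, ?_⟩
    · have h1 : (TU (K + 1) e).1 = (TU K (e + 1)).1 - 2 * (TU K e).1 - 2 * (TU K e).2 := rfl
      linarith
    · have h1 : (TU (K + 1) e).2 = (TU K (e + 1)).1 - 2 * (TU K e).2 := rfl
      by_contra hneg
      rw [not_le] at hneg
      have h3 : ((K + e + 1 : ℕ) : ℤ) * (TU (K + 1) e).2 < 0 :=
        mul_neg_of_pos_of_neg hn hneg
      have he' : (3 * (K + 1) : ℤ) ≤ e := by exact_mod_cast he
      have h4 : ((K + 1 + e).factorial : ℤ) * 2 ≤ ((K + 1 + e).factorial : ℤ) *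
          ((K + (e + 1) : ℕ) - 4 * (K : ℤ)) := by
        refine mul_le_mul_of_nonneg_left ?_ (by positivity)
        push_cast
        linarith
      have h5 : ((K + e + 1 : ℕ) : ℤ) * (2 * (TU K e).2) ≤ 2 * ((K + 1 + e).factorial : ℤ) := by
        rw [hf]
        have := mul_le_mul_of_nonneg_left a4 hn.le
        linarith
      rw [h1] at h3
      have h6 : ((K + (e + 1) : ℕ) : ℤ) = ((K + e + 1 : ℕ) : ℤ) := by push_cast; ring
      rw [h6] at b5 h4
      linarith
    · have h1 : (TU (K + 1) e).2 = (TU K (e + 1)).1 - 2 * (TU K e).2 := rfl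
      linarith
    · exact hlow

theorem TU_half {K e : ℕ} (h : 7 * K ≤ e) (he : 1 ≤ e) :
    ((K + e).factorial : ℤ) ≤ 2 * (TU K e).1 := by
  have h1 := (TU_bounds K e (by omega)).2.2.2.2
  have hn : (0:ℤ) < ((K + e : ℕ) : ℤ) := by exact_mod_cast (by omega : 0 < K + e)
  have h2 : ((K + e).factorial : ℤ) * (K + e : ℕ) ≤ 2 * (((K + e).factorial : ℤ) *
      ((K + e : ℕ) - 4 * K)) := by
    have h3 : ((K + e : ℕ) : ℤ) ≤ 2 * ((K + e : ℕ) - 4 * K) := by
      push_cast
      have : (7 * K : ℤ) ≤ e := by exact_mod_cast h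
      linarith
    have := mul_le_mul_of_nonneg_left h3 (show (0:ℤ) ≤ ((K + e).factorial : ℤ) by positivity)
    linarith
  have h4 : ((K + e : ℕ) : ℤ) * ((K + e).factorial : ℤ) ≤
      ((K + e : ℕ) : ℤ) * (2 * (TU K e).1) := by linarith
  exact le_of_mul_le_mul_left h4 hn

/-- **sums over sets of a lacunary sequence are different** -/
theorem lac_inj (t : ℕ) (d : ℕ → ℤ) (hd : ∀ i < t, 0 < d i)
    (hlac : ∀ i, i + 1 < t → 2 * d (i + 1) ≤ d i) :
    Set.InjOn (fun S : Finset ℕ => ∑ i ∈ S, d i) {S | S ⊆ range t} := by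
  have htail : ∀ m i, i + m < t → ∑ l ∈ Ico (i + 1) (i + m + 1), d l < d i := by
    intro m
    induction m with
    | zero => intro i hi; simpa using hd i (by omega)
    | succ m ih =>
      intro i hi
      have h1 := ih (i + 1) (by omega)
      have h2 := hlac i (by omega)
      rw [Finset.sum_eq_sum_Ico_succ_bot (by omega)]
      have h3 : i + 1 + m + 1 = i + (m + 1) + 1 := by ring
      rw [h3] at h1
      linarith
  have hkey : ∀ S S' : Finset ℕ, S ⊆ range t → S' ⊆ range t → ∀ i, i ∈ S → i ∉ S' →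
      (∀ l < i, l ∈ S ↔ l ∈ S') → ∑ l ∈ S', d l < ∑ l ∈ S, d l := by
    intro S S' hS hS' i hi hi' hl
    have hit : i < t := Finset.mem_range.1 (hS hi)
    have h1 : ∑ l ∈ S', d l ≤ ∑ l ∈ S'.filter (· < i), d l + ∑ l ∈ Ico (i + 1) t, d l := by
      rw [← Finset.sum_filter_add_sum_filter_not S' (· < i)]
      refine add_le_add le_rfl ?_
      refine Finset.sum_le_sum_of_subset_of_nonneg ?_ fun l hl' _ => ?_
      · intro l hl'
        rw [Finset.mem_filter] at hl'
        rw [Finset.mem_Ico]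
        have h2 := Finset.mem_range.1 (hS' hl'.1)
        have h3 : l ≠ i := by rintro rfl; exact hi' hl'.1
        omega
      · rw [Finset.mem_Ico] at hl'
        exact (hd l hl'.2).le
    have h2 : S'.filter (· < i) = S.filter (· < i) := by
      ext l
      rw [Finset.mem_filter, Finset.mem_filter]
      constructor
      · rintro ⟨a, b⟩; exact ⟨(hl l b).2 a, b⟩
      · rintro ⟨a, b⟩; exact ⟨(hl l b).1 a, b⟩
    have h3 : ∑ l ∈ S.filter (· < i), d l + d i ≤ ∑ l ∈ S, d l := by
      rw [← Finset.sum_filter_add_sum_filter_not S (· < i)]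
      refine add_le_add le_rfl ?_
      refine Finset.single_le_sum (f := d) (fun l hl' => ?_) ?_
      · rw [Finset.mem_filter] at hl'
        exact (hd l (Finset.mem_range.1 (hS hl'.1))).le
      · rw [Finset.mem_filter]
        exact ⟨hi, lt_irrefl _⟩
    have h4 := htail (t - 1 - i) i (by omega)
    have h5 : i + (t - 1 - i) + 1 = t := by omega
    rw [h5] at h4
    rw [h2] at h1
    linarith
  intro S hS S' hS' h
  by_contra hne
  have hex : ∃ i, ¬ (i ∈ S ↔ i ∈ S') := by
    by_contra hcon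
    push_neg at hcon
    exact hne (Finset.ext hcon)
  classical
  have hmin := Nat.find_spec hex
  have hlt : ∀ l < Nat.find hex, (l ∈ S ↔ l ∈ S') := fun l hl => not_not.1 (Nat.find_min hex hl)
  set i := Nat.find hex
  by_cases hi : i ∈ S
  · have hi' : i ∉ S' := fun h' => hmin ⟨fun _ => h', fun _ => hi⟩
    exact absurd h.symm (hkey S S' hS hS' i hi hi' hlt).ne
  · have hi' : i ∈ S' := by
      by_contra h'
      exact hmin ⟨fun h'' => absurd h'' hi, fun h'' => absurd h'' h'⟩
    exact absurd h (hkey S' S hS' hS i hi' hi fun l hl => (hlt l hl).symm).ne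

theorem prod_monomial {ι : Type*} [DecidableEq ι] (S : Finset ι) (u : ι → ℕ →₀ ℕ) (a : ι → ℤ) :
    ∏ i ∈ S, monomial (u i) (a i) = monomial (∑ i ∈ S, u i) (∏ i ∈ S, a i) := by
  induction S using Finset.induction_on with
  | empty => simp
  | insert i S hi ih =>
    rw [Finset.prod_insert hi, Finset.sum_insert hi, Finset.prod_insert hi, ih, monomial_mul]

/-- **the permanent as a coefficient** -/
theorem permanent_tau (n : ℕ) (a : ℕ → ℕ → ℤ) :
    (Matrix.of fun i j : Fin n => a i j).permanent =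
      tau (range n) (∏ i ∈ range n, ∑ c ∈ range n, MvPolynomial.C (a i c) * X c) := by
  classical
  rw [← Matrix.permanent_transpose, Matrix.permanent]
  have h1 : ∏ i ∈ range n, ∑ c ∈ range n, MvPolynomial.C (a i c) * X c =
      ∑ f : Fin n → Fin n, ∏ i : Fin n, (MvPolynomial.C (a i (f i)) * X (f i : ℕ)) := by
    rw [← Fin.prod_univ_eq_prod_range
      (fun i => ∑ c ∈ range n, (MvPolynomial.C (a i c) * X c : MvPolynomial ℕ ℤ)) n]
    have h2 : ∀ i : Fin n, ∑ c ∈ range n, (MvPolynomial.C (a i c) * X c : MvPolynomial ℕ ℤ) =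
        ∑ c : Fin n, MvPolynomial.C (a i c) * X (c : ℕ) := fun i =>
      (Fin.sum_univ_eq_sum_range
        (fun c => (MvPolynomial.C (a i c) * X c : MvPolynomial ℕ ℤ)) n).symm
    simp only [h2]
    rw [Finset.prod_univ_sum, Fintype.piFinset_univ]
  rw [h1, tau_sum]
  have h3 : ∀ f : Fin n → Fin n,
      tau (range n) (∏ i : Fin n, (MvPolynomial.C (a i (f i)) * X (f i : ℕ))) =
      if Function.Bijective f then ∏ i : Fin n, a i (f i) else 0 := by
    intro f
    have h4 : ∏ i : Fin n, (MvPolynomial.C (a i (f i)) * X (f i : ℕ)) =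
        monomial (∑ i : Fin n, Finsupp.single (f i : ℕ) 1) (∏ i : Fin n, a i (f i)) := by
      rw [← prod_monomial]
      refine Finset.prod_congr rfl fun i _ => ?_
      rw [C_mul_X_eq_monomial]
    rw [h4, tau, coeff_monomial]
    have h5 : (∑ i : Fin n, Finsupp.single (f i : ℕ) 1 = mono (range n)) ↔
        Function.Bijective f := by
      constructor
      · intro h
        refine Finite.injective_iff_bijective.1 ?_
        intro i j hij
        by_contra hne
        have h6 := DFunLike.congr_fun h (f i : ℕ)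
        rw [Finsupp.finset_sum_apply, mono_apply, if_pos (Finset.mem_range.2 (f i).2)] at h6
        have h7 : ∑ l ∈ ({i, j} : Finset (Fin n)), (Finsupp.single (f l : ℕ) 1 : ℕ →₀ ℕ) (f i) ≤
            ∑ l : Fin n, (Finsupp.single (f l : ℕ) 1 : ℕ →₀ ℕ) (f i) :=
          Finset.sum_le_univ_sum_of_nonneg fun _ => Nat.zero_le _
        rw [Finset.sum_pair hne, hij, Finsupp.single_eq_same] at h7
        rw [hij] at h6
        omega
      · intro h
        rw [mono, ← Fin.sum_univ_eq_sum_range (fun c => (Finsupp.single c 1 : ℕ →₀ ℕ)) n]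
        exact h.sum_comp (fun c : Fin n => (Finsupp.single (c : ℕ) 1 : ℕ →₀ ℕ))
    simp only [h5]
  rw [Finset.sum_congr rfl fun f _ => h3 f, ← Finset.sum_filter]
  refine Finset.sum_bij (fun σ _ => (σ : Fin n → Fin n)) ?_ ?_ ?_ ?_
  · intro σ _
    simp only [Finset.mem_filter, Finset.mem_univ, true_and]
    exact σ.bijective
  · intro σ _ σ' _ h
    exact DFunLike.coe_injective h
  · intro f hf
    simp only [Finset.mem_filter, Finset.mem_univ, true_and] at hf
    exact ⟨Equiv.ofBijective f hf, Finset.mem_univ _, rfl⟩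
  · intro σ _
    rfl

/-- the entries of our matrices: `t` pairs of columns, a path with `4 t` rows -/
def ent (t : ℕ) (S : Finset ℕ) (i c : ℕ) : ℤ :=
  if i = 0 then
    if c < 2 * t then (if c / 2 ∈ S then (if c % 2 = 0 then 1 else -1)
      else (if c % 2 = 0 then -1 else 1)) else 1
  else if i ≤ 4 * t then (if c + 1 = i ∨ c = i then -1 else 1) else 1

theorem ent_pm (t : ℕ) (S : Finset ℕ) (i c : ℕ) : ent t S i c = 1 ∨ ent t S i c = -1 := by
  unfold ent
  split_ifs <;> simp

theorem row_path (t : ℕ) (S : Finset ℕ) (n j : ℕ) (hj : j < 4 * t) (hn : 4 * t < n) :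
    ∑ c ∈ range n, (MvPolynomial.C (ent t S (j + 1) c) * X c : MvPolynomial ℕ ℤ) =
      ss (range n) - 2 * X j - 2 * X (j + 1) := by
  have h1 : ∀ c ∈ range n, (MvPolynomial.C (ent t S (j + 1) c) * X c : MvPolynomial ℕ ℤ) =
      X c - ((if c = j then 2 * X c else 0) + (if c = j + 1 then 2 * X c else 0)) := by
    intro c _
    unfold ent
    rw [if_neg (Nat.succ_ne_zero j), if_pos (by omega)]
    by_cases h2 : c = j
    · subst h2
      rw [if_pos (Or.inl rfl), if_pos rfl, if_neg (by omega), map_neg, map_one]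
      ring
    · by_cases h3 : c = j + 1
      · subst h3
        rw [if_pos (Or.inr rfl), if_neg (by omega), if_pos rfl, map_neg, map_one]
        ring
      · rw [if_neg (by omega), if_neg h2, if_neg h3, map_one]
        ring
  rw [Finset.sum_congr rfl h1, Finset.sum_sub_distrib, Finset.sum_add_distrib,
    Finset.sum_ite_eq', Finset.sum_ite_eq', if_pos (Finset.mem_range.2 (by omega)),
    if_pos (Finset.mem_range.2 (by omega)), ss]
  ring

theorem row_ones (t : ℕ) (S : Finset ℕ) (n i : ℕ) (hi : 4 * t < i) :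
    ∑ c ∈ range n, (MvPolynomial.C (ent t S i c) * X c : MvPolynomial ℕ ℤ) = ss (range n) := by
  rw [ss]
  refine Finset.sum_congr rfl fun c _ => ?_
  unfold ent
  rw [if_neg (by omega), if_neg (by omega), map_one, one_mul]

/-- the signs of the pairs of columns -/
def sg (S : Finset ℕ) (i : ℕ) : ℤ := if i ∈ S then 1 else -1

theorem row_zero (t : ℕ) (S : Finset ℕ) (n : ℕ) (hn : 2 * t ≤ n) :
    ∑ c ∈ range n, (MvPolynomial.C (ent t S 0 c) * X c : MvPolynomial ℕ ℤ) =
      ∑ i ∈ range t, MvPolynomial.C (sg S i) * (X (2 * i) - X (2 * i + 1)) +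
        ∑ c ∈ range (n - 2 * t), X (2 * t + c) := by
  obtain ⟨m, rfl⟩ := Nat.exists_eq_add_of_le hn
  rw [Finset.sum_range_add, Nat.add_sub_cancel_left]
  congr 1
  · have h : ∀ u ≤ t, ∑ c ∈ range (2 * u), (MvPolynomial.C (ent t S 0 c) * X c :
        MvPolynomial ℕ ℤ) = ∑ i ∈ range u, MvPolynomial.C (sg S i) * (X (2 * i) - X (2 * i + 1)) := by
      intro u
      induction u with
      | zero => intro _; simp
      | succ u ih =>
        intro hu
        rw [Finset.sum_range_succ _ u, ← ih (by omega), show 2 * (u + 1) = 2 * u + 1 + 1 by ring,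
          Finset.sum_range_succ, Finset.sum_range_succ]
        have h1 : ent t S 0 (2 * u) = sg S u := by
          unfold ent sg
          rw [if_pos rfl, if_pos (by omega), show 2 * u / 2 = u by omega,
            if_pos (show 2 * u % 2 = 0 by omega), if_pos (show 2 * u % 2 = 0 by omega)]
        have h2 : ent t S 0 (2 * u + 1) = - sg S u := by
          unfold ent sg
          rw [if_pos rfl, if_pos (by omega), show (2 * u + 1) / 2 = u by omega,
            if_neg (show ¬ (2 * u + 1) % 2 = 0 by omega),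
            if_neg (show ¬ (2 * u + 1) % 2 = 0 by omega)]
          split_ifs <;> simp
        rw [h1, h2, map_neg]
        ring
    exact h t le_rfl
  · refine Finset.sum_congr rfl fun c _ => ?_
    unfold ent
    rw [if_pos rfl, if_neg (by omega), map_one, one_mul]

/-- the lacunary sequence -/
def dd (t e i : ℕ) : ℤ := 2 * 4 ^ (2 * i) * (TU (4 * t - 4 * i - 2) e).1

/-- **the permanent of our matrices** -/
theorem perm_formula (t r : ℕ) : ∃ κ : ℤ, ∀ S : Finset ℕ,
    (Matrix.of fun i j : Fin (4 * t + r + 1) => ent t S i j).permanent =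
      κ - ∑ i ∈ range t, sg S i * dd t (r + 1) i := by
  set n := 4 * t + r + 1 with hn
  refine ⟨tau (range n) ((∑ c ∈ range (n - 2 * t), X (2 * t + c)) *
    (qq (range n) 0 (4 * t) * ss (range n) ^ r)), fun S => ?_⟩
  rw [permanent_tau]
  have h1 : ∏ i ∈ range n, ∑ c ∈ range n,
      (MvPolynomial.C (ent t S i c) * X c : MvPolynomial ℕ ℤ) =
      (∑ i ∈ range t, MvPolynomial.C (sg S i) * (X (2 * i) - X (2 * i + 1)) +
        ∑ c ∈ range (n - 2 * t), X (2 * t + c)) *
        (qq (range n) 0 (4 * t) * ss (range n) ^ r) := by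
    conv_lhs => rw [hn, Finset.prod_range_succ']
    rw [← hn, row_zero t S n (by omega), mul_comm]
    congr 1
    rw [Finset.prod_range_add]
    congr 1
    · rw [qq]
      refine Finset.prod_congr rfl fun j hj => ?_
      rw [Finset.mem_range] at hj
      rw [row_path t S n j hj (by omega), zero_add]
    · rw [Finset.prod_congr rfl fun j _ => row_ones t S n _ (by omega), Finset.prod_const,
        Finset.card_range]
  rw [h1, add_mul, tau_add, add_comm, sub_eq_add_neg]
  congr 1
  rw [Finset.sum_mul, tau_sum, ← Finset.sum_neg_distrib]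
  refine Finset.sum_congr rfl fun i hi => ?_
  rw [Finset.mem_range] at hi
  rw [mul_assoc, tau_C_mul]
  have h2 : tau (range n) ((X (2 * i) - X (2 * i + 1)) *
      (qq (range n) 0 (4 * t) * ss (range n) ^ r)) = - dd t (r + 1) i := by
    have h3 : qq (range n) 0 (4 * t) = qq (range n) 0 (2 * i) *
        ((ss (range n) - 2 * X (2 * i) - 2 * X (2 * i + 1)) *
          qq (range n) (2 * i + 1) (2 * i + 1 + (4 * t - 4 * i - 2))) := by
      rw [← qq_succ', show 2 * i + 1 + (4 * t - 4 * i - 2) + 1 = 4 * t - 2 * i by omega]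
      have := qq_add (range n) 0 (2 * i) (4 * t - 2 * i)
      rw [show 2 * i + (4 * t - 2 * i) = 4 * t by omega, zero_add] at this
      exact this
    have h4 : (X (2 * i) - X (2 * i + 1)) * (qq (range n) 0 (4 * t) * ss (range n) ^ r) =
        (X (2 * i) - X (2 * i + 1)) * (qq (range n) 0 (2 * i) *
          (qq (range n) (2 * i + 1) (2 * i + 1 + (4 * t - 4 * i - 2)) *
            ss (range n) ^ (r + 1))) +
        MvPolynomial.C (-2) * (X (2 * i) * (X (2 * i) * (qq (range n) 0 (2 * i) *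
          (qq (range n) (2 * i + 1) (2 * i + 1 + (4 * t - 4 * i - 2)) * ss (range n) ^ r)))) +
        MvPolynomial.C 2 * (X (2 * i + 1) * (X (2 * i + 1) * (qq (range n) 0 (2 * i) *
          (qq (range n) (2 * i + 1) (2 * i + 1 + (4 * t - 4 * i - 2)) *
            ss (range n) ^ r)))) := by
      rw [h3, map_neg, map_ofNat]
      ring
    rw [h4, tau_add, tau_add, tau_C_mul, tau_C_mul, tau_sq, tau_sq,
      tau_D (2 * i) (2 * i + 1) (4 * t - 4 * i - 2) (r + 1) (range n) (by omega)
        (fun j hj => Finset.mem_range.2 (by omega)) (fun j _ hj => Finset.mem_range.2 (by omega))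
        (by rw [Finset.card_range]; omega), dd]
    ring
  rw [h2]
  ring

theorem dd_pos {t e i : ℕ} (hi : i < t) (he : 28 * t ≤ e) : 0 < dd t e i := by
  have h1 := TU_half (K := 4 * t - 4 * i - 2) (e := e) (by omega) (by omega)
  have h2 : (0:ℤ) < ((4 * t - 4 * i - 2 + e).factorial : ℤ) := by positivity
  unfold dd
  have h3 : 0 < (TU (4 * t - 4 * i - 2) e).1 := by linarith
  positivity

theorem dd_lac {t e i : ℕ} (hi : i + 1 < t) (he : 28 * t ≤ e) :
    2 * dd t e (i + 1) ≤ dd t e i := by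
  have h1 := TU_half (K := 4 * t - 4 * i - 2) (e := e) (by omega) (by omega)
  have h2 := (TU_bounds (4 * t - 4 * (i + 1) - 2) e (by omega)).2.1
  set m := 4 * t - 4 * (i + 1) - 2 + e with hm
  have h3 : 4 * t - 4 * i - 2 + e = m + 4 := by omega
  rw [h3] at h1
  have h4 : ((m + 4).factorial : ℤ) = (m + 4) * ((m + 3) * ((m + 2) * ((m + 1) *
      (m.factorial : ℤ)))) := by
    rw [Nat.factorial_succ, Nat.factorial_succ, Nat.factorial_succ, Nat.factorial_succ]
    push_cast
    ring
  have hm28 : (28 : ℤ) ≤ m := by exact_mod_cast (by omega : 28 ≤ m)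
  have hF : (0:ℤ) < (m.factorial : ℤ) := by positivity
  have h5 : 64 * (m.factorial : ℤ) ≤ ((m + 4).factorial : ℤ) := by
    rw [h4]
    have a1 : (m.factorial : ℤ) ≤ (m + 1) * (m.factorial : ℤ) := by nlinarith
    have a2 : (m.factorial : ℤ) ≤ (m + 2) * ((m + 1) * (m.factorial : ℤ)) := by nlinarith
    have a3 : 8 * (m.factorial : ℤ) ≤ (m + 3) * ((m + 2) * ((m + 1) * (m.factorial : ℤ))) := by
      nlinarith
    nlinarith
  unfold dd
  have h6 : (4:ℤ) ^ (2 * (i + 1)) = 16 * 4 ^ (2 * i) := by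
    rw [show 2 * (i + 1) = 2 * i + 2 by ring, pow_add]; ring
  rw [h6]
  have h7 : (0:ℤ) < 4 ^ (2 * i) := by positivity
  have h8 : 64 * (TU (4 * t - 4 * (i + 1) - 2) e).1 ≤ 2 * (TU (4 * t - 4 * i - 2) e).1 := by
    linarith
  nlinarith

theorem sum_sg (t : ℕ) (d : ℕ → ℤ) {S : Finset ℕ} (hS : S ⊆ range t) :
    ∑ i ∈ range t, sg S i * d i = 2 * ∑ i ∈ S, d i - ∑ i ∈ range t, d i := by
  have h1 : ∀ i ∈ range t, sg S i * d i = 2 * (if i ∈ S then d i else 0) - d i := by
    intro i _
    unfold sg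
    split_ifs <;> ring
  rw [Finset.sum_congr rfl h1, Finset.sum_sub_distrib, ← Finset.mul_sum, Finset.sum_ite_mem,
    Finset.inter_eq_right.2 hS]

/-- the set of permanents has at least `2 ^ t` elements -/
theorem card_ge (t r : ℕ) (hr : 28 * t ≤ r) :
    2 ^ t ≤ Set.ncard {p : ℤ | ∃ A : Matrix (Fin (4 * t + r + 1)) (Fin (4 * t + r + 1)) ℤ,
      (∀ i j, A i j = 1 ∨ A i j = -1) ∧ A.permanent = p} := by
  set V := {p : ℤ | ∃ A : Matrix (Fin (4 * t + r + 1)) (Fin (4 * t + r + 1)) ℤ,
      (∀ i j, A i j = 1 ∨ A i j = -1) ∧ A.permanent = p} with hV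
  have hfin : V.Finite := by
    have h1 : V ⊆ Set.range fun b : Fin (4 * t + r + 1) → Fin (4 * t + r + 1) → Bool =>
        (Matrix.of fun i j => if b i j then (1:ℤ) else -1).permanent := by
      rintro p ⟨A, hA, rfl⟩
      refine ⟨fun i j => decide (A i j = 1), ?_⟩
      simp only [decide_eq_true_eq]
      congr 1
      ext i j
      rcases hA i j with h | h <;> simp [h]
    exact (Set.finite_range _).subset h1
  obtain ⟨κ, hκ⟩ := perm_formula t r
  have hinj : Set.InjOn (fun S : Finset ℕ =>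
      (Matrix.of fun i j : Fin (4 * t + r + 1) => ent t S i j).permanent)
      ((range t).powerset : Set (Finset ℕ)) := by
    intro S hS S' hS' h
    rw [Finset.mem_coe, Finset.mem_powerset] at hS hS'
    simp only [hκ] at h
    rw [sum_sg t _ hS, sum_sg t _ hS'] at h
    refine lac_inj t (dd t (r + 1)) (fun i hi => dd_pos hi (by omega))
      (fun i hi => dd_lac hi (by omega)) hS hS' ?_
    simp only
    linarith
  have h2 : ((range t).powerset.image fun S : Finset ℕ =>
      (Matrix.of fun i j : Fin (4 * t + r + 1) => ent t S i j).permanent).card = 2 ^ t := by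
    rw [Finset.card_image_of_injOn hinj, Finset.card_powerset, Finset.card_range]
  rw [← h2, ← Set.ncard_coe_finset]
  refine Set.ncard_le_ncard ?_ hfin
  intro p hp
  rw [Finset.mem_coe, Finset.mem_image] at hp
  obtain ⟨S, _, rfl⟩ := hp
  exact ⟨_, fun i j => ent_pm t S i j, rfl⟩

/-- **the number of permanents grows exponentially** -/
theorem main : ∃ c : ℝ, 1 < c ∧ ∃ N : ℕ, ∀ n : ℕ, N ≤ n →
    c ^ n ≤ ((Set.ncard {p : ℤ | ∃ A : Matrix (Fin n) (Fin n) ℤ,
      (∀ i j, A i j = 1 ∨ A i j = -1) ∧ A.permanent = p} : ℕ) : ℝ) := by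
  refine ⟨(2:ℝ) ^ ((1:ℝ) / 128), Real.one_lt_rpow one_lt_two (by norm_num), 128, fun n hn => ?_⟩
  obtain ⟨t, r, hr, hnt, h128⟩ : ∃ t r : ℕ, 28 * t ≤ r ∧ n = 4 * t + r + 1 ∧ n ≤ 128 * t :=
    ⟨n / 64, n - 4 * (n / 64) - 1, by omega, by omega, by omega⟩
  have h1 := card_ge t r hr
  rw [← hnt] at h1
  have h2 : ((2:ℝ) ^ ((1:ℝ) / 128)) ^ n ≤ 2 ^ t := by
    rw [← Real.rpow_natCast, ← Real.rpow_mul (by norm_num), ← Real.rpow_natCast]
    refine Real.rpow_le_rpow_of_exponent_le one_le_two ?_
    have : (n:ℝ) ≤ 128 * t := by exact_mod_cast h128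
    linarith
  refine h2.trans ?_
  exact_mod_cast h1

end

end Pool.Agent.W349.NP
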