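import Mathlib

/-!
# Permanents as coefficients, and permanents of matrices whose negative entries form a path

`tau C p` is the coefficient of `∏_{c ∈ C} X_c` in `p`.
-/

set_option autoImplicit false

namespace Pool.Agent.W349.NP

open MvPolynomial Finset

noncomputable section

/-- the exponent of the product of the variables in `C` -/
def mono (C : Finset ℕ) : ℕ →₀ ℕ := ∑ c ∈ C, Finsupp.single c 1

theorem mono_apply (C : Finset ℕ) (a : ℕ) : mono C a = if a ∈ C then 1 else 0 := by
  rw [mono, Finsupp.finset_sum_apply]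
  simp [Finsupp.single_apply]

/-- the coefficient of the product of the variables in `C` -/
def tau (C : Finset ℕ) (p : MvPolynomial ℕ ℤ) : ℤ := coeff (mono C) p

/-- the sum of the variables in `C` -/
def ss (C : Finset ℕ) : MvPolynomial ℕ ℤ := ∑ c ∈ C, X c

theorem tau_add (C : Finset ℕ) (p q : MvPolynomial ℕ ℤ) : tau C (p + q) = tau C p + tau C q :=
  coeff_add _ _ _

theorem tau_sub (C : Finset ℕ) (p q : MvPolynomial ℕ ℤ) : tau C (p - q) = tau C p - tau C q :=
  coeff_sub _ _ _ _

theorem tau_sum {ι : Type*} (C : Finset ℕ) (s : Finset ι) (f : ι → MvPolynomial ℕ ℤ) :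
    tau C (∑ i ∈ s, f i) = ∑ i ∈ s, tau C (f i) :=
  coeff_sum _ _ _

theorem tau_C_mul (C : Finset ℕ) (a : ℤ) (p : MvPolynomial ℕ ℤ) :
    tau C (MvPolynomial.C a * p) = a * tau C p :=
  coeff_C_mul _ _ _

theorem tau_sq (C : Finset ℕ) (a : ℕ) (g : MvPolynomial ℕ ℤ) : tau C (X a * (X a * g)) = 0 := by
  unfold tau
  rw [coeff_X_mul']
  split_ifs with h
  · rw [coeff_X_mul', if_neg]
    intro h2
    rw [Finsupp.mem_support_iff] at h2
    apply h2
    rw [Finsupp.tsub_apply, mono_apply, Finsupp.single_eq_same]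
    split_ifs <;> rfl
  · rfl

theorem tau_del {C : Finset ℕ} {a : ℕ} (ha : a ∈ C) (g : MvPolynomial ℕ ℤ) :
    tau C (X a * g) = tau (C.erase a) g := by
  unfold tau
  rw [coeff_X_mul', if_pos]
  · congr 1
    ext b
    rw [Finsupp.tsub_apply, mono_apply, mono_apply, Finsupp.single_apply]
    by_cases h : a = b
    · subst h; simp [ha]
    · have h' : b ≠ a := fun h' => h h'.symm
      simp [h, h']
  · rw [Finsupp.mem_support_iff, mono_apply, if_pos ha]
    exact one_ne_zero

/-- put `X_a = 0` -/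
def ph (a : ℕ) : MvPolynomial ℕ ℤ →ₐ[ℤ] MvPolynomial ℕ ℤ :=
  aeval (fun i => if i = a then 0 else X i)

theorem ph_X {a b : ℕ} (h : b ≠ a) : ph a (X b) = X b := by
  rw [ph, aeval_X, if_neg h]

theorem ph_ss (a : ℕ) (C : Finset ℕ) : ph a (ss C) = ss (C.erase a) := by
  rw [ss, map_sum, ss]
  have h : ∀ c ∈ C, ph a (X c) = if c = a then 0 else X c := fun c _ => by rw [ph, aeval_X]
  rw [Finset.sum_congr rfl h, Finset.sum_ite, Finset.sum_const_zero, zero_add]
  refine Finset.sum_congr ?_ fun _ _ => rfl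
  ext c
  simp [and_comm]

theorem tau_ph {C : Finset ℕ} {a : ℕ} (ha : a ∉ C) (g : MvPolynomial ℕ ℤ) :
    tau C (ph a g) = tau C g := by
  induction g using MvPolynomial.induction_on' with
  | monomial u r =>
    unfold tau
    by_cases h : u a = 0
    · congr 1
      rw [ph, aeval_monomial, monomial_eq]
      congr 1
      refine Finsupp.prod_congr fun i hi => ?_
      have hia : i ≠ a := by
        rintro rfl
        exact (Finsupp.mem_support_iff.1 hi) h
      rw [if_neg hia]
    · have h1 : ph a (monomial u r) = 0 := by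
        rw [ph, aeval_monomial]
        have : (u.prod fun i k => (if i = a then (0 : MvPolynomial ℕ ℤ) else X i) ^ k) = 0 := by
          rw [Finsupp.prod]
          refine Finset.prod_eq_zero (Finsupp.mem_support_iff.2 h) ?_
          rw [if_pos rfl, zero_pow h]
        rw [this, mul_zero]
      rw [h1, coeff_zero, coeff_monomial, if_neg]
      intro h2
      apply h
      rw [h2, mono_apply, if_neg ha]
  | add p q hp hq => rw [map_add, tau_add, tau_add, hp, hq]

theorem tau_swap {C : Finset ℕ} {a b : ℕ} (ha : a ∈ C) (hb : b ∈ C) (g : MvPolynomial ℕ ℤ) :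
    tau C (rename (Equiv.swap a b) g) = tau C g := by
  unfold tau
  have h1 : Finsupp.mapDomain (Equiv.swap a b) (mono C) = mono C := by
    ext c
    rw [Finsupp.mapDomain_equiv_apply, Equiv.symm_swap, mono_apply, mono_apply]
    have h2 : Equiv.swap a b c ∈ C ↔ c ∈ C := by
      by_cases h3 : c = a
      · subst h3; simp [ha, hb]
      · by_cases h4 : c = b
        · subst h4; simp [ha, hb]
        · rw [Equiv.swap_apply_of_ne_of_ne h3 h4]
    simp only [h2]
  conv_lhs => rw [← h1]
  exact coeff_rename_mapDomain _ (Equiv.injective _) _ _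

/-- an expression which changes its sign when `X_a` and `X_b` are interchanged -/
theorem tau_anti {C : Finset ℕ} {a b : ℕ} (ha : a ∈ C) (hb : b ∈ C) {g : MvPolynomial ℕ ℤ}
    (hg : rename (Equiv.swap a b) g = g) : tau C ((X a - X b) * g) = 0 := by
  have h := tau_swap ha hb ((X a - X b) * g)
  rw [map_mul, map_sub, hg, rename_X, rename_X, Equiv.swap_apply_left, Equiv.swap_apply_right]
    at h
  have h2 : (X b - X a) * g = MvPolynomial.C (-1) * ((X a - X b) * g) := by
    rw [map_neg, map_one]; ring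
  rw [h2, tau_C_mul] at h
  linarith

theorem rename_ss {C : Finset ℕ} {a b : ℕ} (ha : a ∈ C) (hb : b ∈ C) :
    rename (Equiv.swap a b) (ss C) = ss C := by
  rw [ss, map_sum]
  simp only [rename_X]
  refine Finset.sum_bij (fun c _ => Equiv.swap a b c) ?_ ?_ ?_ ?_
  · intro c hc
    by_cases h3 : c = a
    · subst h3; simp [hb]
    · by_cases h4 : c = b
      · subst h4; simp [ha]
      · rwa [Equiv.swap_apply_of_ne_of_ne h3 h4]
  · intro c _ c' _ h
    exact (Equiv.swap a b).injective h
  · intro c hc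
    refine ⟨Equiv.swap a b c, ?_, Equiv.swap_apply_self a b c⟩
    by_cases h3 : c = a
    · subst h3; simp [hb]
    · by_cases h4 : c = b
      · subst h4; simp [ha]
      · rwa [Equiv.swap_apply_of_ne_of_ne h3 h4]
  · intro c _
    rfl

theorem rename_X' {a b c : ℕ} (h1 : c ≠ a) (h2 : c ≠ b) :
    rename (R := ℤ) (Equiv.swap a b) (X c) = X c := by
  rw [rename_X, Equiv.swap_apply_of_ne_of_ne h1 h2]

theorem tau_fact (n : ℕ) : ∀ C : Finset ℕ, C.card = n → tau C (ss C ^ n) = (n.factorial : ℤ) := by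
  induction n with
  | zero =>
    intro C hC
    rw [Finset.card_eq_zero] at hC
    subst hC
    simp [tau, mono]
  | succ n ih =>
    intro C hC
    have h1 : ss C ^ (n + 1) = ∑ c ∈ C, X c * ss C ^ n := by
      rw [pow_succ', ← Finset.sum_mul]
      rfl
    rw [h1, tau_sum]
    have h2 : ∀ c ∈ C, tau C (X c * ss C ^ n) = (n.factorial : ℤ) := by
      intro c hc
      rw [tau_del hc, ← tau_ph (Finset.notMem_erase c C), map_pow, ph_ss]
      exact ih _ (by rw [Finset.card_erase_of_mem hc, hC]; rfl)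
    rw [Finset.sum_congr rfl h2, Finset.sum_const, hC, Nat.factorial_succ]
    simp

/-- the product of the rows of a path: `∏_{j < k} (s - 2 X_{p + j} - 2 X_{p + j + 1})` -/
def qq (C : Finset ℕ) (p k : ℕ) : MvPolynomial ℕ ℤ :=
  ∏ j ∈ range k, (ss C - 2 * X (p + j) - 2 * X (p + j + 1))

theorem qq_succ (C : Finset ℕ) (p k : ℕ) :
    qq C p (k + 1) = qq C p k * (ss C - 2 * X (p + k) - 2 * X (p + k + 1)) := by
  rw [qq, Finset.prod_range_succ, ← qq]

theorem qq_succ' (C : Finset ℕ) (p k : ℕ) :
    qq C p (k + 1) = (ss C - 2 * X p - 2 * X (p + 1)) * qq C (p + 1) k := by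
  rw [qq, Finset.prod_range_succ', qq, mul_comm]
  simp only [add_zero]
  congr 1
  refine Finset.prod_congr rfl fun j _ => ?_
  rw [show p + (j + 1) = p + 1 + j by ring]

theorem qq_add (C : Finset ℕ) (p k l : ℕ) : qq C p (k + l) = qq C p k * qq C (p + k) l := by
  rw [qq, Finset.prod_range_add, qq, qq]
  congr 1
  refine Finset.prod_congr rfl fun j _ => ?_
  rw [show p + (k + j) = p + k + j by ring]

theorem ph_qq {a : ℕ} (C : Finset ℕ) {p k : ℕ} (h : ∀ j, p ≤ j → j ≤ p + k → j ≠ a) :
    ph a (qq C p k) = qq (C.erase a) p k := by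
  rw [qq, map_prod, qq]
  refine Finset.prod_congr rfl fun j hj => ?_
  rw [Finset.mem_range] at hj
  rw [map_sub, map_sub, map_mul, map_mul, ph_ss, ph_X (h _ (by omega) (by omega)),
    ph_X (h _ (by omega) (by omega)), map_ofNat]

theorem rename_qq {C : Finset ℕ} {a b : ℕ} (ha : a ∈ C) (hb : b ∈ C) {p k : ℕ}
    (h : ∀ j, p ≤ j → j ≤ p + k → j ≠ a ∧ j ≠ b) :
    rename (Equiv.swap a b) (qq C p k) = qq C p k := by
  rw [qq, map_prod]
  refine Finset.prod_congr rfl fun j hj => ?_
  rw [Finset.mem_range] at hj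
  have h1 := h (p + j) (by omega) (by omega)
  have h2 := h (p + j + 1) (by omega) (by omega)
  rw [map_sub, map_sub, map_mul, map_mul, rename_ss ha hb, rename_X' h1.1 h1.2,
    rename_X' h2.1 h2.2, map_ofNat]

/-- the numbers `(T K e, U K e)` -/
def TU : ℕ → ℕ → ℤ × ℤ
  | 0, e => ((e.factorial : ℤ), (e.factorial : ℤ))
  | K + 1, e => ((TU K (e + 1)).1 - 2 * (TU K e).1 - 2 * (TU K e).2,
      (TU K (e + 1)).1 - 2 * (TU K e).2)

theorem tau_TU (K : ℕ) : ∀ (e p : ℕ) (C : Finset ℕ), (∀ j, p ≤ j → j ≤ p + K → j ∈ C) →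
    (C.card = K + e → tau C (qq C p K * ss C ^ e) = (TU K e).1) ∧
    (C.card = K + e + 1 → tau C (X p * (qq C p K * ss C ^ e)) = (TU K e).2) := by
  induction K with
  | zero =>
    intro e p C hp
    have hq : qq C p 0 = 1 := by simp [qq]
    rw [hq, one_mul]
    refine ⟨fun h => tau_fact e C (by omega), fun h => ?_⟩
    have hpC := hp p le_rfl le_rfl
    rw [tau_del hpC, ← tau_ph (Finset.notMem_erase p C), map_pow, ph_ss]
    exact tau_fact e _ (by rw [Finset.card_erase_of_mem hpC, h]; omega)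
  | succ K ih =>
    intro e p C hp
    have hpC := hp p le_rfl (by omega)
    have hp1 : ∀ j, p + 1 ≤ j → j ≤ p + 1 + K → j ∈ C := fun j h1 h2 => hp j (by omega) (by omega)
    have hp1C := hp1 (p + 1) le_rfl (by omega)
    have hp1' : ∀ j, p + 1 ≤ j → j ≤ p + 1 + K → j ∈ C.erase p := fun j h1 h2 =>
      Finset.mem_erase.2 ⟨by omega, hp1 j h1 h2⟩
    have hph : ph p (qq C (p + 1) K * ss C ^ e) =
        qq (C.erase p) (p + 1) K * ss (C.erase p) ^ e := by
      rw [map_mul, map_pow, ph_qq C (fun j h1 _ => by omega), ph_ss]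
    refine ⟨fun h => ?_, fun h => ?_⟩
    · have e1 : qq C p (K + 1) * ss C ^ e = qq C (p + 1) K * ss C ^ (e + 1) -
          MvPolynomial.C 2 * (X p * (qq C (p + 1) K * ss C ^ e)) -
          MvPolynomial.C 2 * (X (p + 1) * (qq C (p + 1) K * ss C ^ e)) := by
        rw [qq_succ', map_ofNat]
        ring
      rw [e1, tau_sub, tau_sub, tau_C_mul, tau_C_mul, (ih (e + 1) (p + 1) C hp1).1 (by omega),
        (ih e (p + 1) C hp1).2 (by omega), tau_del hpC, ← tau_ph (Finset.notMem_erase p C), hph,
        (ih e (p + 1) (C.erase p) hp1').1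
          (by rw [Finset.card_erase_of_mem hpC, h]; omega)]
      rfl
    · have e1 : X p * (qq C p (K + 1) * ss C ^ e) =
          X p * (qq C (p + 1) K * ss C ^ (e + 1)) -
          MvPolynomial.C 2 * (X p * (X p * (qq C (p + 1) K * ss C ^ e))) -
          MvPolynomial.C 2 * (X p * (X (p + 1) * (qq C (p + 1) K * ss C ^ e))) := by
        rw [qq_succ', map_ofNat]
        ring
      have hph1 : ph p (qq C (p + 1) K * ss C ^ (e + 1)) =
          qq (C.erase p) (p + 1) K * ss (C.erase p) ^ (e + 1) := by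
        rw [map_mul, map_pow, ph_qq C (fun j h1 _ => by omega), ph_ss]
      have hph2 : ph p (X (p + 1) * (qq C (p + 1) K * ss C ^ e)) =
          X (p + 1) * (qq (C.erase p) (p + 1) K * ss (C.erase p) ^ e) := by
        rw [map_mul, ph_X (by omega), hph]
      have hc : (C.erase p).card = K + e + 1 := by rw [Finset.card_erase_of_mem hpC, h]; omega
      rw [e1, tau_sub, tau_sub, tau_C_mul, tau_C_mul, tau_sq, tau_del hpC, tau_del hpC,
        ← tau_ph (Finset.notMem_erase p C), hph1,
        ← tau_ph (Finset.notMem_erase p C) (X (p + 1) * _), hph2,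
        (ih (e + 1) (p + 1) (C.erase p) hp1').1 (by omega),
        (ih e (p + 1) (C.erase p) hp1').2 hc]
      change _ = (TU K (e + 1)).1 - 2 * (TU K e).2
      ring

/-- the main recursion -/
theorem tau_D (x : ℕ) : ∀ (y k e : ℕ) (C : Finset ℕ), x < y → (∀ j, j ≤ x → j ∈ C) →
    (∀ j, y ≤ j → j ≤ y + (x + 1 + k) → j ∈ C) → C.card = x + (x + 1 + k) + e + 1 →
    tau C ((X x - X y) * (qq C 0 x * (qq C y (x + 1 + k) * ss C ^ e))) =
      -2 * 4 ^ x * (TU k e).1 := by
  induction x with
  | zero =>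
    intro y k e C hxy hx hy hc
    have hq : qq C 0 0 = 1 := by simp [qq]
    have h0C := hx 0 le_rfl
    have hyC := hy y le_rfl (by omega)
    rw [hq, one_mul]
    have e1 : (X 0 - X y) * (qq C y (0 + 1 + k) * ss C ^ e) =
        (X 0 - X y) * ((ss C - 2 * X (y + 1)) * (qq C (y + 1) k * ss C ^ e)) -
        MvPolynomial.C 2 * (X 0 * (X y * (qq C (y + 1) k * ss C ^ e))) +
        MvPolynomial.C 2 * (X y * (X y * (qq C (y + 1) k * ss C ^ e))) := by
      rw [show 0 + 1 + k = k + 1 by ring, qq_succ', map_ofNat]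
      ring
    have hanti : tau C ((X 0 - X y) * ((ss C - 2 * X (y + 1)) * (qq C (y + 1) k * ss C ^ e)))
        = 0 := by
      refine tau_anti h0C hyC ?_
      rw [map_mul, map_mul, map_sub, map_mul, map_pow, rename_ss h0C hyC,
        rename_qq h0C hyC (fun j h1 _ => ⟨by omega, by omega⟩),
        rename_X' (by omega) (by omega), map_ofNat]
    have hph1 : ph 0 (X y * (qq C (y + 1) k * ss C ^ e)) =
        X y * (qq (C.erase 0) (y + 1) k * ss (C.erase 0) ^ e) := by
      rw [map_mul, map_mul, map_pow, ph_X (by omega), ph_qq C (fun j h1 _ => by omega), ph_ss]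
    have hyC' : y ∈ C.erase 0 := Finset.mem_erase.2 ⟨by omega, hyC⟩
    have hph2 : ph y (qq (C.erase 0) (y + 1) k * ss (C.erase 0) ^ e) =
        qq ((C.erase 0).erase y) (y + 1) k * ss ((C.erase 0).erase y) ^ e := by
      rw [map_mul, map_pow, ph_qq _ (fun j h1 _ => by omega), ph_ss]
    have hT := (tau_TU k e (y + 1) ((C.erase 0).erase y) (fun j h1 h2 => by
      rw [Finset.mem_erase, Finset.mem_erase]
      exact ⟨by omega, by omega, hy j (by omega) (by omega)⟩)).1 (by
        rw [Finset.card_erase_of_mem hyC', Finset.card_erase_of_mem h0C, hc]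
        omega)
    rw [e1, tau_add, tau_sub, tau_C_mul, tau_C_mul, tau_sq, hanti, tau_del h0C,
      ← tau_ph (Finset.notMem_erase 0 C), hph1, tau_del hyC',
      ← tau_ph (Finset.notMem_erase y _), hph2, hT]
    ring
  | succ x ih =>
    intro y k e C hxy hx hy hc
    have haC := hx (x + 1) le_rfl
    have hbC := hy y le_rfl (by omega)
    have hbC' : y ∈ C.erase (x + 1) := Finset.mem_erase.2 ⟨by omega, hbC⟩
    have hI := ih (y + 1) k e ((C.erase (x + 1)).erase y) (by omega)
      (fun j hj => by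
        rw [Finset.mem_erase, Finset.mem_erase]
        exact ⟨by omega, by omega, hx j (by omega)⟩)
      (fun j h1 h2 => by
        rw [Finset.mem_erase, Finset.mem_erase]
        exact ⟨by omega, by omega, hy j (by omega) (by omega)⟩)
      (by
        rw [Finset.card_erase_of_mem hbC', Finset.card_erase_of_mem haC, hc]
        omega)
    have e1 : (X (x + 1) - X y) * (qq C 0 (x + 1) * (qq C y (x + 1 + 1 + k) * ss C ^ e)) =
        (X (x + 1) - X y) * ((ss C - 2 * X x) * (ss C - 2 * X (y + 1)) *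
          (qq C 0 x * (qq C (y + 1) (x + 1 + k) * ss C ^ e))) +
        MvPolynomial.C 4 * (X (x + 1) * (X y * ((X x - X (y + 1)) *
          (qq C 0 x * (qq C (y + 1) (x + 1 + k) * ss C ^ e))))) +
        MvPolynomial.C (-2) * (X (x + 1) * (X (x + 1) * ((ss C - 2 * X y - 2 * X (y + 1)) *
          (qq C 0 x * (qq C (y + 1) (x + 1 + k) * ss C ^ e))))) +
        MvPolynomial.C 2 * (X y * (X y * ((ss C - 2 * X x - 2 * X (x + 1)) *
          (qq C 0 x * (qq C (y + 1) (x + 1 + k) * ss C ^ e))))) := by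
      rw [show x + 1 + 1 + k = (x + 1 + k) + 1 by ring, qq_succ' C y, qq_succ C 0, map_neg,
        map_ofNat, map_ofNat]
      simp only [zero_add]
      ring
    have hanti : tau C ((X (x + 1) - X y) * ((ss C - 2 * X x) * (ss C - 2 * X (y + 1)) *
          (qq C 0 x * (qq C (y + 1) (x + 1 + k) * ss C ^ e)))) = 0 := by
      refine tau_anti haC hbC ?_
      rw [map_mul, map_mul, map_mul, map_mul, map_sub, map_sub, map_mul, map_mul, map_pow,
        rename_ss haC hbC, rename_qq haC hbC (fun j h1 h2 => ⟨by omega, by omega⟩),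
        rename_qq haC hbC (fun j h1 h2 => ⟨by omega, by omega⟩),
        rename_X' (by omega) (by omega), rename_X' (by omega) (by omega), map_ofNat]
    have hph1 : ph (x + 1) (X y * ((X x - X (y + 1)) *
          (qq C 0 x * (qq C (y + 1) (x + 1 + k) * ss C ^ e)))) =
        X y * ((X x - X (y + 1)) * (qq (C.erase (x + 1)) 0 x *
          (qq (C.erase (x + 1)) (y + 1) (x + 1 + k) * ss (C.erase (x + 1)) ^ e))) := by
      rw [map_mul, map_mul, map_mul, map_mul, map_sub, map_pow, ph_X (by omega), ph_X (by omega),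
        ph_X (by omega), ph_qq C (fun j h1 _ => by omega), ph_qq C (fun j h1 _ => by omega), ph_ss]
    have hph2 : ph y ((X x - X (y + 1)) * (qq (C.erase (x + 1)) 0 x *
          (qq (C.erase (x + 1)) (y + 1) (x + 1 + k) * ss (C.erase (x + 1)) ^ e))) =
        (X x - X (y + 1)) * (qq ((C.erase (x + 1)).erase y) 0 x *
          (qq ((C.erase (x + 1)).erase y) (y + 1) (x + 1 + k) *
            ss ((C.erase (x + 1)).erase y) ^ e)) := by
      rw [map_mul, map_mul, map_mul, map_sub, map_pow, ph_X (by omega), ph_X (by omega),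
        ph_qq _ (fun j h1 _ => by omega), ph_qq _ (fun j h1 _ => by omega), ph_ss]
    rw [e1, tau_add, tau_add, tau_add, tau_C_mul, tau_C_mul, tau_C_mul, tau_sq, tau_sq, hanti,
      tau_del haC, ← tau_ph (Finset.notMem_erase (x + 1) C), hph1, tau_del hbC',
      ← tau_ph (Finset.notMem_erase y _), hph2, hI]
    ring

end

end Pool.Agent.W349.NP
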